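import Mathlib

set_option autoImplicit false

/-!
General facts on complex representations of groups: existence of irreducible representations
containing a prescribed eigenvector, and the dimension of an irreducible representation containing
an eigenvector whose stabiliser is as small as possible.
-/

namespace Pool.Agent.W447.RepGen

/-- irreducibility, in the form of the statement -/
def Irr {G V : Type} [Group G] [AddCommGroup V] [Module ℂ V] (ρ : Representation ℂ G V) : Prop :=
  ∀ W : Submodule ℂ V, (∀ g v, v ∈ W → ρ g v ∈ W) → W = ⊥ ∨ W = ⊤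

theorem exists_irred {G : Type} [Group G] (S : Set G) (θ : G → ℂ) :
    ∀ (n : ℕ) (V : Type) [AddCommGroup V] [Module ℂ V] [FiniteDimensional ℂ V]
      (ρ : Representation ℂ G V) (v : V), Module.finrank ℂ V = n → v ≠ 0 →
      (∀ s ∈ S, ρ s v = θ s • v) →
      ∃ (V' : Type) (_ : AddCommGroup V') (_ : Module ℂ V') (ρ' : Representation ℂ G V') (v' : V'),
        FiniteDimensional ℂ V' ∧ Irr ρ' ∧ v' ≠ 0 ∧ ∀ s ∈ S, ρ' s v' = θ s • v' := by
  intro n
  induction n using Nat.strong_induction_on with
  | _ n ih =>
    intro V _ _ _ ρ v hn hv hS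
    by_cases hirr : Irr ρ
    · exact ⟨V, inferInstance, inferInstance, ρ, v, inferInstance, hirr, hv, hS⟩
    · unfold Irr at hirr
      push Not at hirr
      obtain ⟨W, hW, hbot, htop⟩ := hirr
      have hlt : Module.finrank ℂ W < n := by
        rw [← hn]
        exact Submodule.finrank_lt htop
      have hpos : 0 < Module.finrank ℂ W := by
        rw [Module.finrank_pos_iff]
        exact Submodule.nontrivial_iff_ne_bot.2 hbot
      by_cases hvW : v ∈ W
      · refine ih _ hlt W (ρ.subrepresentation W (fun g w hw => hW g w hw)) ⟨v, hvW⟩ rfl ?_ ?_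
        · intro h
          exact hv (congrArg Subtype.val h)
        · intro s hs
          apply Subtype.ext
          simpa using hS s hs
      · have hq : Module.finrank ℂ (V ⧸ W) < n := by
          have := Submodule.finrank_quotient_add_finrank W
          omega
        refine ih _ hq (V ⧸ W) (ρ.quotient W (fun g w hw => hW g w hw)) (Submodule.Quotient.mk v)
          rfl ?_ ?_
        · intro h
          exact hvW ((Submodule.Quotient.mk_eq_zero W).1 h)
        · intro s hs
          have : (ρ.quotient W (fun g w hw => hW g w hw)) s (Submodule.Quotient.mk v)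
              = Submodule.Quotient.mk (ρ s v) := rfl
          rw [this, hS s hs]
          rfl

/-- eigenvectors with pairwise different systems of eigenvalues are independent -/
theorem indep_aux {I J V : Type} [AddCommGroup V] [Module ℂ V] (f : J → V →ₗ[ℂ] V) (w : I → V)
    (l : I → J → ℂ) (hw : ∀ i, w i ≠ 0) (hf : ∀ i j, f j (w i) = l i j • w i)
    (hl : ∀ i i', i ≠ i' → ∃ j, l i j ≠ l i' j) (s : Finset I) :
    ∀ c : I → ℂ, ∑ i ∈ s, c i • w i = 0 → ∀ i ∈ s, c i = 0 := by
  classical
  induction s using Finset.induction_on with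
  | empty => intro c _ i hi; simp at hi
  | insert a s ha ih =>
    intro c hc
    have key : ∀ i ∈ s, c i = 0 := by
      intro i hi
      have hne : i ≠ a := by rintro rfl; exact ha hi
      obtain ⟨j, hj⟩ := hl i a hne
      have h1 : ∑ i ∈ s, (c i * (l i j - l a j)) • w i = 0 := by
        have h2 := congrArg (fun x => f j x - l a j • x) hc
        simp only [map_sum, map_smul, map_zero, smul_zero, sub_zero, hf] at h2
        rw [Finset.smul_sum, ← Finset.sum_sub_distrib, Finset.sum_insert ha] at h2
        have h3 : c a • l a j • w a - l a j • c a • w a = 0 := by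
          rw [smul_comm, sub_self]
        rw [h3, zero_add] at h2
        rw [← h2]
        apply Finset.sum_congr rfl
        intro i _
        rw [mul_smul, sub_smul, smul_sub, smul_comm (l a j) (c i)]
      have h4 := ih (fun i => c i * (l i j - l a j)) h1 i hi
      rcases mul_eq_zero.1 h4 with h5 | h5
      · exact h5
      · exact absurd (sub_eq_zero.1 h5) hj
    intro i hi
    rcases Finset.mem_insert.1 hi with rfl | hi
    · rw [Finset.sum_insert ha, Finset.sum_eq_zero (fun k hk => by rw [key k hk, zero_smul]),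
        add_zero] at hc
      exact (smul_eq_zero.1 hc).resolve_right (hw _)
    · exact key i hi

theorem apply_ne_zero {G V : Type} [Group G] [AddCommGroup V] [Module ℂ V]
    (ρ : Representation ℂ G V) (g : G) {v : V} (hv : v ≠ 0) : ρ g v ≠ 0 := by
  intro h
  apply hv
  have h2 : ρ g⁻¹ (ρ g v) = v := by
    rw [← Module.End.mul_apply, ← map_mul, inv_mul_cancel, map_one, Module.End.one_apply]
  rw [← h2, h, map_zero]

/-- Let `V` be irreducible, `v ≠ 0` an eigenvector of `S`. Then `dim V ≤ [G : S]`. -/
theorem span_out {G V : Type} [Group G] [AddCommGroup V] [Module ℂ V]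
    (ρ : Representation ℂ G V) (hirr : Irr ρ) (S : Subgroup G) (θ : G → ℂ)
    (v : V) (hv : v ≠ 0) (hS : ∀ s ∈ S, ρ s v = θ s • v) :
    Submodule.span ℂ (Set.range fun q : G ⧸ S => ρ q.out v) = ⊤ := by
  have hinv : ∀ g u, u ∈ Submodule.span ℂ (Set.range fun q : G ⧸ S => ρ q.out v) →
      ρ g u ∈ Submodule.span ℂ (Set.range fun q : G ⧸ S => ρ q.out v) := by
    intro g u hu
    induction hu using Submodule.span_induction with
    | mem x hx =>
      obtain ⟨q, rfl⟩ := hx
      obtain ⟨s, hs⟩ := QuotientGroup.mk_out_eq_mul S (g * q.out)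
      have h1 : ρ g (ρ q.out v) =
          (θ (s : G)⁻¹) • ρ ((QuotientGroup.mk (g * q.out) : G ⧸ S).out) v := by
        rw [hs, map_mul ρ (g * q.out) (s : G), Module.End.mul_apply]
        have h2 := hS _ (S.inv_mem s.2)
        have h3 : ρ (s : G) (θ (s : G)⁻¹ • v) = v := by
          rw [← h2, ← Module.End.mul_apply, ← map_mul, mul_inv_cancel, map_one,
            Module.End.one_apply]
        rw [← map_smul, ← map_smul, h3, map_mul, Module.End.mul_apply]
      show ρ g (ρ q.out v) ∈ _
      rw [h1]
      exact Submodule.smul_mem _ _ (Submodule.subset_span ⟨_, rfl⟩)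
    | zero => simp
    | add x y _ _ hx hy => rw [map_add]; exact Submodule.add_mem _ hx hy
    | smul a x _ hx => rw [map_smul]; exact Submodule.smul_mem _ _ hx
  rcases hirr _ hinv with h | h
  · exfalso
    have hmem : ρ ((QuotientGroup.mk 1 : G ⧸ S).out) v ∈
        Submodule.span ℂ (Set.range fun q : G ⧸ S => ρ q.out v) :=
      Submodule.subset_span ⟨_, rfl⟩
    rw [h, Submodule.mem_bot] at hmem
    exact apply_ne_zero ρ _ hv hmem
  · exact h

theorem finrank_le {G V : Type} [Group G] [Finite G] [AddCommGroup V] [Module ℂ V]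
    (ρ : Representation ℂ G V) (hirr : Irr ρ) (S : Subgroup G) (θ : G → ℂ)
    (v : V) (hv : v ≠ 0) (hS : ∀ s ∈ S, ρ s v = θ s • v) :
    Module.finrank ℂ V ≤ S.index := by
  have h := span_out ρ hirr S θ v hv hS
  have : Fintype (G ⧸ S) := Fintype.ofFinite _
  have h2 := finrank_range_le_card (R := ℂ) (fun q : G ⧸ S => ρ q.out v)
  rw [Set.finrank, h, finrank_top] at h2
  rwa [Subgroup.index, Nat.card_eq_fintype_card]

theorem finrank_eq {G V : Type} [Group G] [Finite G] [AddCommGroup V] [Module ℂ V]
    (ρ : Representation ℂ G V) (hirr : Irr ρ) (S K : Subgroup G) (hK : K.Normal) (hKS : K ≤ S)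
    (θ : G → ℂ) (v : V) (hv : v ≠ 0) (hS : ∀ s ∈ S, ρ s v = θ s • v)
    (hst : ∀ g, (∀ k ∈ K, θ (g⁻¹ * k * g) = θ k) → g ∈ S) :
    Module.finrank ℂ V = S.index := by
  have h := span_out ρ hirr S θ v hv hS
  have : Fintype (G ⧸ S) := Fintype.ofFinite _
  have hind : LinearIndependent ℂ (fun q : G ⧸ S => ρ q.out v) := by
    rw [linearIndependent_iff']
    refine indep_aux (J := K) (fun k => ρ (k : G)) (fun q : G ⧸ S => ρ q.out v)
      (fun q k => θ (q.out⁻¹ * k * q.out)) (fun q => apply_ne_zero ρ _ hv) ?_ ?_
    · intro q k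
      have h1 : q.out⁻¹ * k * q.out ∈ K := by
        have := hK.conj_mem k k.2 q.out⁻¹
        simpa using this
      have h2 := hS _ (hKS h1)
      show ρ (k : G) (ρ q.out v) = θ (q.out⁻¹ * k * q.out) • ρ q.out v
      rw [← map_smul, ← h2, ← Module.End.mul_apply, ← Module.End.mul_apply, ← map_mul, ← map_mul]
      congr 2
      group
    · intro q q' hq
      by_contra hcon
      push Not at hcon
      apply hq
      have hmem : q.out⁻¹ * q'.out ∈ S := by
        apply hst
        intro k hk
        have hk' : q.out * k * q.out⁻¹ ∈ K := hK.conj_mem k hk q.out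
        have := hcon ⟨_, hk'⟩
        simp only at this
        have e1 : q.out⁻¹ * (q.out * k * q.out⁻¹) * q.out = k := by group
        have e2 : q'.out⁻¹ * (q.out * k * q.out⁻¹) * q'.out
            = (q.out⁻¹ * q'.out)⁻¹ * k * (q.out⁻¹ * q'.out) := by group
        rw [e1, e2] at this
        exact this.symm
      have := QuotientGroup.eq.2 hmem
      simpa using this
  have hb : Submodule.span ℂ (Set.range fun q : G ⧸ S => ρ q.out v) ≥ ⊤ := h.ge
  have := Module.finrank_eq_card_basis (Module.Basis.mk hind hb)
  rw [this, Subgroup.index, Nat.card_eq_fintype_card]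

/-- commuting operators on a nonzero finite dimensional space have a common eigenvector -/
theorem common_eigen {J : Type} : ∀ (n : ℕ) (V : Type) [AddCommGroup V] [Module ℂ V]
    [FiniteDimensional ℂ V] [Nontrivial V] (f : J → V →ₗ[ℂ] V), Module.finrank ℂ V = n →
    (∀ i j, Commute (f i) (f j)) → ∃ (v : V) (l : J → ℂ), v ≠ 0 ∧ ∀ j, f j v = l j • v := by
  intro n
  induction n using Nat.strong_induction_on with
  | _ n ih =>
    intro V _ _ _ _ f hn hc
    by_cases hs : ∀ j, ∃ a : ℂ, ∀ v, f j v = a • v
    · choose l hl using hs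
      obtain ⟨v, hv⟩ := exists_ne (0 : V)
      exact ⟨v, l, hv, fun j => hl j v⟩
    · push Not at hs
      obtain ⟨j, hj⟩ := hs
      obtain ⟨a, ha⟩ := Module.End.exists_eigenvalue (f j)
      set E := Module.End.eigenspace (f j) a with hE
      have hEbot : E ≠ ⊥ := ha
      have hEtop : E ≠ ⊤ := by
        intro h
        obtain ⟨v, hv⟩ := hj a
        apply hv
        have : v ∈ E := by rw [h]; trivial
        exact Module.End.mem_eigenspace_iff.1 this
      have hlt : Module.finrank ℂ E < n := by
        rw [← hn]; exact Submodule.finrank_lt hEtop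
      have : Nontrivial E := Submodule.nontrivial_iff_ne_bot.2 hEbot
      have hinv : ∀ i, ∀ v ∈ E, f i v ∈ E := by
        intro i v hv
        rw [Module.End.mem_eigenspace_iff] at hv ⊢
        have := LinearMap.congr_fun (hc j i) v
        simp only [Module.End.mul_apply] at this
        rw [this, hv, map_smul]
      obtain ⟨v, l, hv, hl⟩ := ih _ hlt E (fun i => (f i).restrict (hinv i)) rfl (by
        intro i k
        apply LinearMap.ext
        intro x
        apply Subtype.ext
        have := LinearMap.congr_fun (hc i k) (x : V)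
        simpa using this)
      refine ⟨v, l, ?_, ?_⟩
      · intro h; exact hv (Subtype.ext h)
      · intro i
        have := congrArg Subtype.val (hl i)
        simpa using this

/-- Let `K` be a subgroup acting through a character `ψ` on a nonzero vector of an irreducible
representation, and `g ∉ K` an element of the normaliser of `K` fixing `ψ`. Then
`2 * dim V ≤ [G : K]`. -/
theorem finrank_le_half {G V : Type} [Group G] [Finite G] [AddCommGroup V] [Module ℂ V]
    [FiniteDimensional ℂ V]
    (ρ : Representation ℂ G V) (hirr : Irr ρ) (K : Subgroup G) (ψ : G → ℂ) (v : V) (hv : v ≠ 0)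
    (hK : ∀ k ∈ K, ρ k v = ψ k • v) (g : G) (hg : g ∉ K)
    (hgK : ∀ k ∈ K, g⁻¹ * k * g ∈ K ∧ ψ (g⁻¹ * k * g) = ψ k) :
    2 * Module.finrank ℂ V ≤ K.index := by
  -- the eigenspace
  let E : Submodule ℂ V :=
    { carrier := {w | ∀ k ∈ K, ρ k w = ψ k • w}
      add_mem' := by
        intro a b ha hb k hk
        rw [map_add, ha k hk, hb k hk, smul_add]
      zero_mem' := by
        intro k _
        rw [map_zero, smul_zero]
      smul_mem' := by
        intro c x hx k hk
        rw [map_smul, hx k hk, smul_comm] }
  have hE : ∀ w ∈ E, ρ g w ∈ E := by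
    intro w hw k hk
    have h1 := hw _ (hgK k hk).1
    rw [(hgK k hk).2] at h1
    have h2 : ρ k (ρ g w) = ρ g (ρ (g⁻¹ * k * g) w) := by
      rw [← Module.End.mul_apply, ← Module.End.mul_apply, ← map_mul, ← map_mul]
      congr 2
      group
    rw [h2, h1, map_smul]
  have hvE : v ∈ E := hK
  have : Nontrivial E := ⟨⟨⟨v, hvE⟩, 0, fun h => hv (congrArg Subtype.val h)⟩⟩
  obtain ⟨a, ha⟩ := Module.End.exists_eigenvalue ((ρ g).restrict hE)
  obtain ⟨w, hw⟩ := ha.exists_hasEigenvector
  have hw0 : (w : V) ≠ 0 := fun h => hw.2 (Subtype.ext h)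
  have hwg : ρ g (w : V) = a • (w : V) := by
    have := congrArg Subtype.val (Module.End.mem_eigenspace_iff.1 hw.1)
    simpa using this
  -- stabiliser of the line
  let S : Subgroup G :=
    { carrier := {h | ∃ c : ℂ, ρ h (w : V) = c • (w : V)}
      mul_mem' := by
        rintro x y ⟨c, hc⟩ ⟨d, hd⟩
        refine ⟨d * c, ?_⟩
        rw [map_mul, Module.End.mul_apply, hd, map_smul, hc, smul_smul]
      one_mem' := ⟨1, by rw [map_one, Module.End.one_apply, one_smul]⟩
      inv_mem' := by
        rintro x ⟨c, hc⟩
        have hc0 : c ≠ 0 := by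
          rintro rfl
          rw [zero_smul] at hc
          exact apply_ne_zero ρ x hw0 hc
        refine ⟨c⁻¹, ?_⟩
        have : ρ x⁻¹ (ρ x (w : V)) = w := by
          rw [← Module.End.mul_apply, ← map_mul, inv_mul_cancel, map_one, Module.End.one_apply]
        rw [hc, map_smul] at this
        rw [eq_comm, inv_smul_eq_iff₀ hc0]
        exact this.symm }
  have hKS : K ≤ S := fun k hk => ⟨ψ k, w.2 k hk⟩
  have hgS : g ∈ S := ⟨a, hwg⟩
  choose! θ hθ using fun (h : G) (hh : h ∈ S) => (hh : ∃ c : ℂ, ρ h (w : V) = c • (w : V))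
  have hle := finrank_le ρ hirr S θ (w : V) hw0 hθ
  have hrel : 2 ≤ K.relIndex S := by
    have h1 : K.relIndex S ≠ 1 := by
      intro h
      rw [Subgroup.relIndex_eq_one] at h
      exact hg (h hgS)
    have h2 : K.relIndex S ≠ 0 := Subgroup.index_ne_zero_of_finite
    omega
  have hmul := Subgroup.relIndex_mul_index hKS
  nlinarith

end Pool.Agent.W447.RepGen
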