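import Mathlib
import Pool.Agent.W447.RepGen

set_option autoImplicit false

/-!
`GL_3` over a ring `A` with a surjection `φ` onto a field whose kernel is generated by an element
`ϖ` of square zero and is the annihilator of `ϖ`.
-/

namespace Pool.Agent.W447.GLloc

open Matrix

variable {A F : Type} [CommRing A] [Field F]

/-- the situation: `A` is a local ring of length two with residue field `F` -/
structure Loc (φ : A →+* F) (ϖ : A) : Prop where
  surj : Function.Surjective φ
  ker : ∀ a, φ a = 0 → ∃ b, a = ϖ * b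
  phi : φ ϖ = 0
  sq : ϖ * ϖ = 0
  ann : ∀ a, ϖ * a = 0 → φ a = 0

variable {φ : A →+* F} {ϖ : A}

theorem Loc.mul_zero (h : Loc φ ϖ) {a b : A} (ha : φ a = 0) (hb : φ b = 0) : a * b = 0 := by
  obtain ⟨c, rfl⟩ := h.ker a ha
  obtain ⟨d, rfl⟩ := h.ker b hb
  linear_combination c * d * h.sq

theorem Loc.isUnit (h : Loc φ ϖ) {a : A} (ha : φ a ≠ 0) : IsUnit a := by
  obtain ⟨b, hb⟩ := h.surj (φ a)⁻¹
  have h1 : φ (a * b - 1) = 0 := by
    rw [map_sub, map_mul, hb, mul_inv_cancel₀ ha, map_one, sub_self]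
  have h2 := h.mul_zero h1 h1
  exact IsUnit.of_mul_eq_one (b * (2 - a * b)) (by linear_combination -h2)

/-- the element `1 + ϖ x` of `GL_3(A)` -/
def kk (h : Loc φ ϖ) (x : Matrix (Fin 3) (Fin 3) A) : GL (Fin 3) A where
  val := 1 + ϖ • x
  inv := 1 - ϖ • x
  val_inv := by
    have : (ϖ • x) * (ϖ • x) = 0 := by
      rw [smul_mul_smul_comm, h.sq, zero_smul]
    rw [mul_sub, mul_one, add_mul, one_mul, this]
    abel
  inv_val := by
    have : (ϖ • x) * (ϖ • x) = 0 := by
      rw [smul_mul_smul_comm, h.sq, zero_smul]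
    rw [mul_add, mul_one, sub_mul, one_mul, this]
    abel

theorem kk_val (h : Loc φ ϖ) (x : Matrix (Fin 3) (Fin 3) A) :
    (kk h x : Matrix (Fin 3) (Fin 3) A) = 1 + ϖ • x := rfl

theorem kk_add (h : Loc φ ϖ) (x y : Matrix (Fin 3) (Fin 3) A) :
    kk h (x + y) = kk h x * kk h y := by
  apply Units.ext
  rw [Units.val_mul, kk_val, kk_val, kk_val, add_mul, one_mul, mul_add, mul_one,
    smul_mul_smul_comm, h.sq, zero_smul, smul_add]
  abel

theorem kk_zero (h : Loc φ ϖ) : kk h 0 = 1 := by
  apply Units.ext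
  rw [kk_val, smul_zero, add_zero, Units.val_one]

theorem kk_conj (h : Loc φ ϖ) (x : Matrix (Fin 3) (Fin 3) A) (g : GL (Fin 3) A) :
    g⁻¹ * kk h x * g = kk h ((g⁻¹ : GL (Fin 3) A).val * x * g.val) := by
  apply Units.ext
  rw [Units.val_mul, Units.val_mul, kk_val, kk_val, mul_add, mul_one, add_mul,
    ← Units.val_mul, inv_mul_cancel, Units.val_one, mul_smul_comm, smul_mul_assoc]

theorem kk_congr (h : Loc φ ϖ) {x y : Matrix (Fin 3) (Fin 3) A}
    (hxy : ∀ i j, φ (x i j) = φ (y i j)) : kk h x = kk h y := by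
  apply Units.ext
  rw [kk_val, kk_val]
  congr 1
  ext i j
  rw [Matrix.smul_apply, Matrix.smul_apply, smul_eq_mul, smul_eq_mul]
  have h1 : φ (x i j - y i j) = 0 := by rw [map_sub, hxy, sub_self]
  have := h.mul_zero h.phi h1
  linear_combination this

/-- the congruence kernel -/
noncomputable def K (φ : A →+* F) : Subgroup (GL (Fin 3) A) :=
  (GeneralLinearGroup.map (n := Fin 3) φ).ker

theorem mem_K {g : GL (Fin 3) A} :
    g ∈ K φ ↔ ∀ i j, φ (g.val i j) = (1 : Matrix (Fin 3) (Fin 3) F) i j := by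
  rw [K, MonoidHom.mem_ker]
  constructor
  · intro h i j
    have h2 := congrArg (fun u : GL (Fin 3) F => u.val i j) h
    simpa using h2
  · intro h
    apply Units.ext
    ext i j
    have := h i j
    simpa using this

theorem mem_K_iff (h : Loc φ ϖ) {g : GL (Fin 3) A} : g ∈ K φ ↔ ∃ x, g = kk h x := by
  rw [mem_K]
  constructor
  · intro hg
    have h1 : ∀ i j, ∃ b, g.val i j - (1 : Matrix (Fin 3) (Fin 3) A) i j = ϖ * b := by
      intro i j
      apply h.ker
      rw [map_sub, hg i j]
      by_cases hij : i = j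
      · subst hij; simp
      · simp [Matrix.one_apply_ne hij]
    choose b hb using h1
    refine ⟨Matrix.of b, ?_⟩
    apply Units.ext
    ext i j
    rw [kk_val, Matrix.add_apply, Matrix.smul_apply, smul_eq_mul, of_apply, ← hb i j]
    ring
  · rintro ⟨x, rfl⟩ i j
    rw [kk_val, Matrix.add_apply, Matrix.smul_apply, smul_eq_mul, map_add, map_mul, h.phi, zero_mul, add_zero]
    by_cases hij : i = j
    · subst hij; simp
    · simp [Matrix.one_apply_ne hij]

theorem K_normal : (K φ).Normal := MonoidHom.normal_ker _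

theorem map_surj (h : Loc φ ϖ) : Function.Surjective (GeneralLinearGroup.map (n := Fin 3) φ) := by
  intro g
  choose s hs using h.surj
  let m : Matrix (Fin 3) (Fin 3) A := Matrix.of fun i j => s (g.val i j)
  have hm : m.map φ = g.val := by
    ext i j
    simp [m, hs]
  have hdet : IsUnit m.det := by
    apply h.isUnit
    have h1 : φ m.det = (m.map φ).det := by
      rw [RingHom.map_det]; rfl
    rw [h1, hm]
    exact (g.val.isUnit_iff_isUnit_det.1 g.isUnit).ne_zero
  refine ⟨GeneralLinearGroup.mk'' m hdet, ?_⟩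
  apply Units.ext
  exact hm

theorem K_index [Finite F] (h : Loc φ ϖ) : (K φ).index = Nat.card (GL (Fin 3) F) := by
  rw [K, Subgroup.index_ker, MonoidHom.range_eq_top.2 (map_surj h)]
  exact Nat.card_congr Subgroup.topEquiv.toEquiv

end Pool.Agent.W447.GLloc
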