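import Mathlib
import Pool.Agent.W447.GLloc

set_option autoImplicit false

/-!
An irreducible representation of `GL_3(A)` of dimension `q^3 (q+1) (q^2+q+1)`.
-/

namespace Pool.Agent.W447.GLloc

open Matrix

variable {A F : Type} [CommRing A] [Field F]

/-- diagonal torus -/
def D (F : Type) [Field F] : Subgroup (GL (Fin 3) F) where
  carrier := {g | ∀ i j, i ≠ j → g.val i j = 0}
  mul_mem' := by
    intro a b ha hb i j hij
    rw [Units.val_mul, Matrix.mul_apply]
    apply Finset.sum_eq_zero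
    intro k _
    by_cases hik : i = k
    · subst hik
      rw [hb i j hij, mul_zero]
    · rw [ha i k hik, zero_mul]
  one_mem' := by
    intro i j hij
    rw [Units.val_one, Matrix.one_apply_ne hij]
  inv_mem' := by
    intro a ha
    have key : ∀ i j, a.val i i * (a⁻¹).val i j = (1 : Matrix (Fin 3) (Fin 3) F) i j := by
      intro i j
      have h1 : (a.val * (a⁻¹).val) i j = (1 : Matrix (Fin 3) (Fin 3) F) i j := by
        rw [← Units.val_mul, mul_inv_cancel, Units.val_one]
      rw [Matrix.mul_apply, Finset.sum_eq_single i] at h1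
      · exact h1
      · intro k _ hk
        rw [ha i k hk.symm, zero_mul]
      · intro h; exact absurd (Finset.mem_univ i) h
    intro i j hij
    have h1 := key i i
    rw [Matrix.one_apply_eq] at h1
    have h2 := key i j
    rw [Matrix.one_apply_ne hij] at h2
    rcases mul_eq_zero.1 h2 with h3 | h3
    · rw [h3, zero_mul] at h1
      exact absurd h1 zero_ne_one
    · exact h3

theorem mem_D {g : GL (Fin 3) F} : g ∈ D F ↔ ∀ i j, i ≠ j → g.val i j = 0 := Iff.rfl

theorem D_diag {g : GL (Fin 3) F} (hg : g ∈ D F) (i : Fin 3) :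
    g.val i i * (g⁻¹).val i i = 1 := by
  have h1 : (g.val * (g⁻¹).val) i i = (1 : Matrix (Fin 3) (Fin 3) F) i i := by
    rw [← Units.val_mul, mul_inv_cancel, Units.val_one]
  rw [Matrix.mul_apply, Finset.sum_eq_single i, Matrix.one_apply_eq] at h1
  · exact h1
  · intro k _ hk
    rw [hg i k hk.symm, zero_mul]
  · intro h; exact absurd (Finset.mem_univ i) h

/-- the torus is a product of three copies of the unit group -/
noncomputable def Dequiv : D F ≃ (Fin 3 → Fˣ) where
  toFun g i := Units.mk0 (g.1.val i i) (by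
    intro h
    have := D_diag g.2 i
    rw [h, zero_mul] at this
    exact zero_ne_one this)
  invFun u := ⟨⟨Matrix.diagonal fun i => (u i : F), Matrix.diagonal fun i => ((u i)⁻¹ : Fˣ), by
      rw [Matrix.diagonal_mul_diagonal]; simp, by
      rw [Matrix.diagonal_mul_diagonal]; simp⟩, by
      intro i j hij
      exact Matrix.diagonal_apply_ne _ hij⟩
  left_inv := by
    intro g
    apply Subtype.ext
    apply Units.ext
    ext i j
    by_cases hij : i = j
    · subst hij
      simp
    · simp only [Units.val_mk0]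
      rw [Matrix.diagonal_apply_ne _ hij]
      exact (g.2 i j hij).symm
  right_inv := by
    intro u
    funext i
    apply Units.ext
    simp

theorem card_D [Fintype F] : Nat.card (D F) = (Fintype.card F - 1) ^ 3 := by
  classical
  rw [Nat.card_congr Dequiv, Nat.card_pi, Finset.prod_const, Nat.card_eq_fintype_card,
    Fintype.card_units]
  rfl

theorem D_index [Fintype F] :
    (D F).index = Fintype.card F ^ 3 * (Fintype.card F + 1) *
      (Fintype.card F ^ 2 + Fintype.card F + 1) := by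
  have h1 := Subgroup.card_mul_index (D F)
  rw [card_D, Matrix.card_GL_field] at h1
  have hq : 2 ≤ Fintype.card F := Fintype.one_lt_card
  obtain ⟨t, ht⟩ := Nat.exists_eq_add_of_le hq
  rw [ht] at h1 ⊢
  simp only [Fin.prod_univ_three, Fin.val_zero, Fin.val_one, Fin.val_two, pow_zero, pow_one] at h1
  have e1 : (2 + t) ^ 3 - 1 = (t + 1) * ((2 + t) ^ 2 + (2 + t) + 1) := by
    apply Nat.sub_eq_of_eq_add
    ring
  have e2 : (2 + t) ^ 3 - (2 + t) = (t + 1) * ((2 + t) * (3 + t)) := by
    apply Nat.sub_eq_of_eq_add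
    ring
  have e3 : (2 + t) ^ 3 - (2 + t) ^ 2 = (t + 1) * (2 + t) ^ 2 := by
    apply Nat.sub_eq_of_eq_add
    ring
  have e4 : 2 + t - 1 = t + 1 := by omega
  rw [e1, e2, e3, e4] at h1
  have hpos : 0 < (t + 1) ^ 3 := by positivity
  apply Nat.eq_of_mul_eq_mul_left hpos
  rw [h1]
  ring

variable {φ : A →+* F} {ϖ : A}

/-- the stabiliser -/
noncomputable def S (φ : A →+* F) : Subgroup (GL (Fin 3) A) :=
  (D F).comap (GeneralLinearGroup.map (n := Fin 3) φ)

theorem mem_S {g : GL (Fin 3) A} : g ∈ S φ ↔ ∀ i j, i ≠ j → φ (g.val i j) = 0 := by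
  rw [S, Subgroup.mem_comap, mem_D]
  rfl

theorem S_index [Fintype F] (h : Loc φ ϖ) :
    (S φ).index = Fintype.card F ^ 3 * (Fintype.card F + 1) *
      (Fintype.card F ^ 2 + Fintype.card F + 1) := by
  rw [S, Subgroup.index_comap_of_surjective _ (map_surj h), D_index]

theorem K_le_S : K φ ≤ S φ := by
  intro g hg
  rw [mem_K] at hg
  rw [mem_S]
  intro i j hij
  rw [hg i j, Matrix.one_apply_ne hij]

variable (χ : MulChar A ℂ)

/-- the character of the stabiliser -/
noncomputable def θ (g : GL (Fin 3) A) : ℂ := χ (g.val 1 1) * χ (g.val 2 2) ^ 2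

theorem diag_mul (h : Loc φ ϖ) {a b : GL (Fin 3) A} (ha : a ∈ S φ) (hb : b ∈ S φ) (i : Fin 3) :
    (a * b).val i i = a.val i i * b.val i i := by
  rw [mem_S] at ha hb
  rw [Units.val_mul, Matrix.mul_apply, Finset.sum_eq_single i]
  · intro k _ hk
    exact h.mul_zero (ha i k hk.symm) (hb k i hk)
  · intro h; exact absurd (Finset.mem_univ i) h

theorem θ_mul (h : Loc φ ϖ) {a b : GL (Fin 3) A} (ha : a ∈ S φ) (hb : b ∈ S φ) :
    θ χ (a * b) = θ χ a * θ χ b := by
  rw [θ, θ, θ, diag_mul h ha hb, diag_mul h ha hb, map_mul, map_mul]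
  ring

theorem θ_one : θ χ (1 : GL (Fin 3) A) = 1 := by
  rw [θ, Units.val_one, Matrix.one_apply_eq, Matrix.one_apply_eq, map_one]
  norm_num

/-- right translation on functions -/
noncomputable def reg (G : Type) [Group G] : Representation ℂ G (G → ℂ) where
  toFun g := LinearMap.funLeft ℂ ℂ (fun x => x * g)
  map_one' := by
    ext f x
    simp [LinearMap.funLeft]
  map_mul' := by
    intro a b
    ext f x
    simp [LinearMap.funLeft, mul_assoc]

theorem reg_apply {G : Type} [Group G] (g : G) (f : G → ℂ) (x : G) :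
    reg G g f x = f (x * g) := rfl

open Classical in
theorem exists_rep [Finite A] (h : Loc φ ϖ) :
    ∃ (V' : Type) (_ : AddCommGroup V') (_ : Module ℂ V')
      (ρ' : Representation ℂ (GL (Fin 3) A) V') (v' : V'),
      FiniteDimensional ℂ V' ∧ RepGen.Irr ρ' ∧ v' ≠ 0 ∧
        ∀ s ∈ (S φ : Set (GL (Fin 3) A)), ρ' s v' = θ χ s • v' := by
  have : Finite (GL (Fin 3) A) := inferInstance
  refine RepGen.exists_irred (S φ : Set (GL (Fin 3) A)) (θ χ) _ (GL (Fin 3) A → ℂ) (reg _)
    (fun x => if x ∈ S φ then θ χ x else 0) rfl ?_ ?_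
  · intro h0
    have := congrFun h0 1
    simp only [(S φ).one_mem, if_true, Pi.zero_apply] at this
    rw [θ_one] at this
    exact one_ne_zero this
  · intro s hs
    funext x
    rw [reg_apply, Pi.smul_apply, smul_eq_mul]
    by_cases hx : x ∈ S φ
    · rw [if_pos ((S φ).mul_mem hx hs), if_pos hx, θ_mul χ h hx hs, mul_comm]
    · rw [if_neg hx, if_neg, mul_zero]
      intro h2
      exact hx ((Subgroup.mul_mem_cancel_right _ hs).1 h2)

/-- additive character attached to `χ` -/
noncomputable def τ (ϖ : A) (a : A) : ℂ := χ (1 + ϖ * a)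

theorem τ_add (h : Loc φ ϖ) (a b : A) : τ χ ϖ (a + b) = τ χ ϖ a * τ χ ϖ b := by
  rw [τ, τ, τ, ← map_mul]
  congr 1
  linear_combination (-(a * b)) * h.sq

theorem τ_ne (h : Loc φ ϖ) (a : A) : τ χ ϖ a ≠ 0 := by
  intro h0
  have h1 := τ_add χ h a (-a)
  rw [h0, zero_mul, add_neg_cancel, τ, mul_zero, add_zero, map_one] at h1
  exact one_ne_zero h1

/-- the diagonal matrix `diag(0, 1, 2)` -/
def β (A : Type) [CommRing A] : Matrix (Fin 3) (Fin 3) A := Matrix.diagonal ![0, 1, 2]

theorem θ_kk (h : Loc φ ϖ) (x : Matrix (Fin 3) (Fin 3) A) :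
    θ χ (kk h x) = τ χ ϖ (Matrix.trace (β A * x)) := by
  have h1 : Matrix.trace (β A * x) = x 1 1 + (x 2 2 + x 2 2) := by
    simp [β, Matrix.trace, Fin.sum_univ_three, Matrix.diagonal_mul]
    ring
  rw [h1, τ_add χ h, τ_add χ h, θ, kk_val]
  simp only [Matrix.add_apply, Matrix.smul_apply, smul_eq_mul, Matrix.one_apply_eq, τ]
  ring

theorem stab (h : Loc φ ϖ) (hχ : χ (1 + ϖ) ≠ 1) (h2 : (2 : F) ≠ 0) (g : GL (Fin 3) A)
    (hg : ∀ k ∈ K φ, θ χ (g⁻¹ * k * g) = θ χ k) : g ∈ S φ := by
  have h1 : ∀ x : Matrix (Fin 3) (Fin 3) A,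
      τ χ ϖ (Matrix.trace ((g.val * β A * (g⁻¹).val - β A) * x)) = 1 := by
    intro x
    have h3 := hg (kk h x) ((mem_K_iff h).2 ⟨x, rfl⟩)
    rw [kk_conj, θ_kk, θ_kk] at h3
    have h4 : Matrix.trace (β A * ((g⁻¹).val * x * g.val)) =
        Matrix.trace ((g.val * β A * (g⁻¹).val - β A) * x) + Matrix.trace (β A * x) := by
      rw [sub_mul, Matrix.trace_sub, sub_add_cancel, ← mul_assoc, ← mul_assoc,
        Matrix.trace_mul_comm, ← mul_assoc, ← mul_assoc]
    rw [h4, τ_add χ h] at h3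
    exact mul_right_cancel₀ (τ_ne χ h _) (by rw [h3, one_mul])
  have h5 : ∀ i j, φ ((g.val * β A * (g⁻¹).val - β A) i j) = 0 := by
    intro i j
    by_contra hne
    obtain ⟨c, hc⟩ := (h.isUnit hne).exists_left_inv
    have h6 := h1 (c • Matrix.single j i 1)
    rw [Matrix.mul_smul, Matrix.trace_smul, Matrix.trace_mul_single, MulOpposite.op_one, one_smul,
      smul_eq_mul, hc, τ, mul_one] at h6
    exact hχ h6
  have h7 : ∀ i j, φ ((g.val * β A - β A * g.val) i j) = 0 := by
    intro i j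
    have h8 : g.val * β A - β A * g.val = (g.val * β A * (g⁻¹).val - β A) * g.val := by
      rw [sub_mul, mul_assoc (g.val * β A), ← Units.val_mul, inv_mul_cancel, Units.val_one, mul_one]
    rw [h8, Matrix.mul_apply, map_sum]
    apply Finset.sum_eq_zero
    intro k _
    rw [map_mul, h5, zero_mul]
  rw [mem_S]
  intro i j hij
  have h9 := h7 i j
  rw [Matrix.sub_apply, β, Matrix.mul_diagonal, Matrix.diagonal_mul] at h9
  have h10 : φ (g.val i j) * (φ ((![0, 1, 2] : Fin 3 → A) j) - φ ((![0, 1, 2] : Fin 3 → A) i)) = 0 := by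
    rw [← h9, map_sub, map_mul, map_mul]
    ring
  rcases mul_eq_zero.1 h10 with h11 | h11
  · exact h11
  · exfalso
    have hφ2 : φ 2 = 2 := map_ofNat φ 2
    fin_cases i <;> fin_cases j <;> simp [hφ2] at h11 hij <;>
      first
        | exact h2 h11
        | (apply one_ne_zero (α := F); linear_combination h11)
        | (apply one_ne_zero (α := F); linear_combination -h11)

/-- an irreducible representation of dimension `q^3 (q+1) (q^2+q+1)`, non-trivial on the kernel -/
theorem big [Finite A] [Fintype F] (h : Loc φ ϖ) (hχ : χ (1 + ϖ) ≠ 1) (h2 : (2 : F) ≠ 0) :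
    ∃ (V' : Type) (_ : AddCommGroup V') (_ : Module ℂ V')
      (ρ' : Representation ℂ (GL (Fin 3) A) V'),
      FiniteDimensional ℂ V' ∧ Nontrivial V' ∧ RepGen.Irr ρ' ∧
        (∃ g ∈ K φ, ρ' g ≠ 1) ∧ Module.finrank ℂ V' = Fintype.card F ^ 3 * (Fintype.card F + 1) *
      (Fintype.card F ^ 2 + Fintype.card F + 1) := by
  obtain ⟨V', i1, i2, ρ', v', hfd, hirr, hv, hS⟩ := exists_rep χ h
  have : Finite (GL (Fin 3) A) := inferInstance
  refine ⟨V', i1, i2, ρ', hfd, ⟨⟨v', 0, hv⟩⟩, hirr, ?_, ?_⟩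
  · refine ⟨kk h (Matrix.single 1 1 1), (mem_K_iff h).2 ⟨_, rfl⟩, ?_⟩
    intro h1
    have h3 := hS (kk h (Matrix.single 1 1 1)) (K_le_S ((mem_K_iff h).2 ⟨_, rfl⟩))
    rw [h1, Module.End.one_apply, θ_kk] at h3
    have h4 : Matrix.trace (β A * Matrix.single 1 1 1) = 1 := by
      rw [Matrix.trace_mul_single]
      simp [β]
    rw [h4, τ, mul_one] at h3
    have h5 : (χ (1 + ϖ) - 1) • v' = 0 := by
      rw [sub_smul, one_smul, ← h3, sub_self]
    rcases smul_eq_zero.1 h5 with h6 | h6
    · exact hχ (sub_eq_zero.1 h6)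
    · exact hv h6
  · rw [← S_index h]
    exact RepGen.finrank_eq ρ' hirr (S φ) (K φ) K_normal K_le_S (θ χ) v' hv hS
      (stab χ h hχ h2)

end Pool.Agent.W447.GLloc
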