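import Mathlib
import Pool.Agent.W447.GLloc

set_option autoImplicit false

/-!
Over a local ring of length two with residue field of two elements every irreducible representation
of `GL_3` has dimension at most `84`.
-/

namespace Pool.Agent.W447.GLloc

open Matrix

/-- determinant over the field of two elements -/
def detB (g0 g1 g2 g3 g4 g5 g6 g7 g8 : Bool) : Bool :=
  xor (g0 && xor (g4 && g8) (g5 && g7)) (xor (g1 && xor (g3 && g8) (g5 && g6))
    (g2 && xor (g3 && g7) (g4 && g6)))

/-- row times column -/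
def dotB (a b c x y z : Bool) : Bool := xor (a && x) (xor (b && y) (c && z))

/-- the candidate is invertible, not the identity, and commutes with the matrix -/
def okB (b0 b1 b2 b3 b4 b5 b6 b7 b8 g0 g1 g2 g3 g4 g5 g6 g7 g8 : Bool) : Bool :=
  (dotB g0 g1 g2 b0 b3 b6 == dotB b0 b1 b2 g0 g3 g6) &&
  (dotB g0 g1 g2 b1 b4 b7 == dotB b0 b1 b2 g1 g4 g7) &&
  (dotB g0 g1 g2 b2 b5 b8 == dotB b0 b1 b2 g2 g5 g8) &&
  (dotB g3 g4 g5 b0 b3 b6 == dotB b3 b4 b5 g0 g3 g6) &&
  (dotB g3 g4 g5 b1 b4 b7 == dotB b3 b4 b5 g1 g4 g7) &&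
  (dotB g3 g4 g5 b2 b5 b8 == dotB b3 b4 b5 g2 g5 g8) &&
  (dotB g6 g7 g8 b0 b3 b6 == dotB b6 b7 b8 g0 g3 g6) &&
  (dotB g6 g7 g8 b1 b4 b7 == dotB b6 b7 b8 g1 g4 g7) &&
  (dotB g6 g7 g8 b2 b5 b8 == dotB b6 b7 b8 g2 g5 g8) &&
  detB g0 g1 g2 g3 g4 g5 g6 g7 g8 &&
  !(g0 && !g1 && !g2 && !g3 && g4 && !g5 && !g6 && !g7 && g8)

/-- the candidate with the given binary expansion -/
def okN (b0 b1 b2 b3 b4 b5 b6 b7 b8 : Bool) (n : ℕ) : Bool :=
  okB b0 b1 b2 b3 b4 b5 b6 b7 b8 (n.testBit 0) (n.testBit 1) (n.testBit 2) (n.testBit 3)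
    (n.testBit 4) (n.testBit 5) (n.testBit 6) (n.testBit 7) (n.testBit 8)

/-- generators of the subgroups of prime order -/
def cands : List ℕ := [84, 340, 468, 372, 244, 500, 140, 396, 204, 172, 236, 492, 156, 412, 348, 444, 124, 380,
  498, 266, 458, 234, 282, 410, 346, 474, 314, 230, 342, 214, 470, 302, 174, 286, 318,
  161, 417, 481, 401, 337, 465, 305, 241, 425, 233, 281, 345, 313, 421, 277, 309, 181,
  419, 275, 403, 167, 279]

theorem exists_cand : ∀ b0 b1 b2 b3 b4 b5 b6 b7 b8 : Bool,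
    cands.any (okN b0 b1 b2 b3 b4 b5 b6 b7 b8) = true := by
  decide +kernel

/-- `Bool` to the field of two elements -/
def tz (b : Bool) : ZMod 2 := if b then 1 else 0

theorem tz_xor (a b : Bool) : tz (xor a b) = tz a + tz b := by
  revert a b; decide

theorem tz_and (a b : Bool) : tz (a && b) = tz a * tz b := by
  revert a b; decide

theorem tz_surj (x : ZMod 2) : ∃ b, x = tz b := by
  revert x; decide

theorem tz_dot (a b c x y z : Bool) :
    tz (dotB a b c x y z) = tz a * tz x + tz b * tz y + tz c * tz z := by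
  rw [dotB, tz_xor, tz_xor, tz_and, tz_and, tz_and, add_assoc]

theorem neg_eq (x : ZMod 2) : -x = x := by
  revert x; decide

/-- every `3 × 3` matrix over the field of two elements commutes with an invertible matrix
different from the identity -/
theorem exists_comm (m : Matrix (Fin 3) (Fin 3) (ZMod 2)) :
    ∃ g : GL (Fin 3) (ZMod 2), g ≠ 1 ∧ g.val * m = m * g.val := by
  obtain ⟨b0, h0⟩ := tz_surj (m 0 0)
  obtain ⟨b1, h1⟩ := tz_surj (m 0 1)
  obtain ⟨b2, h2⟩ := tz_surj (m 0 2)
  obtain ⟨b3, h3⟩ := tz_surj (m 1 0)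
  obtain ⟨b4, h4⟩ := tz_surj (m 1 1)
  obtain ⟨b5, h5⟩ := tz_surj (m 1 2)
  obtain ⟨b6, h6⟩ := tz_surj (m 2 0)
  obtain ⟨b7, h7⟩ := tz_surj (m 2 1)
  obtain ⟨b8, h8⟩ := tz_surj (m 2 2)
  obtain ⟨n, -, hn⟩ := List.any_eq_true.1 (exists_cand b0 b1 b2 b3 b4 b5 b6 b7 b8)
  rw [okN] at hn
  generalize n.testBit 0 = g0 at hn
  generalize n.testBit 1 = g1 at hn
  generalize n.testBit 2 = g2 at hn
  generalize n.testBit 3 = g3 at hn
  generalize n.testBit 4 = g4 at hn
  generalize n.testBit 5 = g5 at hn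
  generalize n.testBit 6 = g6 at hn
  generalize n.testBit 7 = g7 at hn
  generalize n.testBit 8 = g8 at hn
  rw [okB] at hn
  simp only [Bool.and_eq_true, beq_iff_eq] at hn
  obtain ⟨⟨⟨⟨⟨⟨⟨⟨⟨⟨e0, e1⟩, e2⟩, e3⟩, e4⟩, e5⟩, e6⟩, e7⟩, e8⟩, hdet⟩, hne⟩ := hn
  let M : Matrix (Fin 3) (Fin 3) (ZMod 2) :=
    !![tz g0, tz g1, tz g2; tz g3, tz g4, tz g5; tz g6, tz g7, tz g8]
  have hM : M.det = 1 := by
    have e := congrArg tz hdet
    rw [detB] at e
    simp only [tz_xor, tz_and] at e
    have e' : tz true = 1 := rfl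
    rw [e'] at e
    rw [Matrix.det_fin_three]
    simp only [M, Matrix.of_apply, Matrix.cons_val', Matrix.cons_val_zero, Matrix.cons_val_one,
      Matrix.cons_val, sub_eq_add_neg, neg_eq]
    linear_combination e
  have hdet' : IsUnit M.det := by rw [hM]; exact isUnit_one
  refine ⟨GeneralLinearGroup.mk'' M hdet', ?_, ?_⟩
  · intro h
    have hM1 : M = 1 := congrArg Units.val h
    have f0 : tz g0 = 1 := congrFun (congrFun hM1 0) 0
    have f1 : tz g1 = 0 := congrFun (congrFun hM1 0) 1
    have f2 : tz g2 = 0 := congrFun (congrFun hM1 0) 2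
    have f3 : tz g3 = 0 := congrFun (congrFun hM1 1) 0
    have f4 : tz g4 = 1 := congrFun (congrFun hM1 1) 1
    have f5 : tz g5 = 0 := congrFun (congrFun hM1 1) 2
    have f6 : tz g6 = 0 := congrFun (congrFun hM1 2) 0
    have f7 : tz g7 = 0 := congrFun (congrFun hM1 2) 1
    have f8 : tz g8 = 1 := congrFun (congrFun hM1 2) 2
    have t1 : ∀ b, tz b = 1 → b = true := by decide
    have t0 : ∀ b, tz b = 0 → b = false := by decide
    rw [t1 _ f0, t0 _ f1, t0 _ f2, t0 _ f3, t1 _ f4, t0 _ f5, t0 _ f6, t0 _ f7, t1 _ f8] at hne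
    simp at hne
  · have hm : m = !![tz b0, tz b1, tz b2; tz b3, tz b4, tz b5; tz b6, tz b7, tz b8] := by
      ext i j
      fin_cases i <;> fin_cases j
      · exact h0
      · exact h1
      · exact h2
      · exact h3
      · exact h4
      · exact h5
      · exact h6
      · exact h7
      · exact h8
    change M * m = m * M
    rw [hm]
    ext i j
    have e0 := congrArg tz e0
    have e1 := congrArg tz e1
    have e2 := congrArg tz e2
    have e3 := congrArg tz e3
    have e4 := congrArg tz e4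
    have e5 := congrArg tz e5
    have e6 := congrArg tz e6
    have e7 := congrArg tz e7
    have e8 := congrArg tz e8
    rw [tz_dot, tz_dot] at e0 e1 e2 e3 e4 e5 e6 e7 e8
    rw [Matrix.mul_apply, Matrix.mul_apply, Fin.sum_univ_three, Fin.sum_univ_three]
    fin_cases i <;> fin_cases j
    · exact e0
    · exact e1
    · exact e2
    · exact e3
    · exact e4
    · exact e5
    · exact e6
    · exact e7
    · exact e8

/-- sign character -/
noncomputable def sg (x : ZMod 2) : ℂ := if x = 0 then 1 else -1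

theorem sg_zero : sg 0 = 1 := by simp [sg]

theorem sg_add (x y : ZMod 2) : sg (x + y) = sg x * sg y := by
  obtain ⟨a, rfl⟩ := tz_surj x
  obtain ⟨b, rfl⟩ := tz_surj y
  have h1 : (1 : ZMod 2) + 1 = 0 := by decide
  cases a <;> cases b <;> simp [sg, tz, h1]

theorem sg_sum {I : Type} (s : Finset I) (f : I → ZMod 2) :
    sg (∑ i ∈ s, f i) = ∏ i ∈ s, sg (f i) := by
  classical
  induction s using Finset.induction_on with
  | empty => simp [sg_zero]
  | insert a s ha ih => rw [Finset.sum_insert ha, Finset.prod_insert ha, sg_add, ih]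

section small

variable {A : Type} [CommRing A] {φ : A →+* ZMod 2} {ϖ : A}

/-- a multiplicative function on matrices that only depends on the reduction is given by a trace -/
theorem char_eq (l : Matrix (Fin 3) (Fin 3) A → ℂ) (hl : ∀ x y, l (x + y) = l x * l y)
    (hl0 : l 0 = 1) (hc : ∀ x y : Matrix (Fin 3) (Fin 3) A,
      (∀ i j, φ (x i j) = φ (y i j)) → l x = l y) :
    ∃ m : Matrix (Fin 3) (Fin 3) (ZMod 2), ∀ x, l x = sg (Matrix.trace (m * x.map φ)) := by
  classical
  have hsq : ∀ x, l x = 1 ∨ l x = -1 := by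
    intro x
    have h1 : l (x + x) = 1 := by
      rw [← hl0]
      apply hc
      intro i j
      rw [Matrix.add_apply, Matrix.zero_apply, map_add, map_zero]
      have : ∀ a : ZMod 2, a + a = 0 := by decide
      exact this _
    rw [hl] at h1
    exact mul_self_eq_one_iff.1 h1
  have hsum : ∀ (s : Finset (Fin 3 × Fin 3)) (f : Fin 3 × Fin 3 → Matrix (Fin 3) (Fin 3) A),
      l (∑ i ∈ s, f i) = ∏ i ∈ s, l (f i) := by
    intro s f
    induction s using Finset.induction_on with
    | empty => simpa using hl0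
    | insert a s ha ih => rw [Finset.sum_insert ha, Finset.prod_insert ha, hl, ih]
  refine ⟨Matrix.of fun i j => if l (Matrix.single j i 1) = 1 then 0 else 1, ?_⟩
  intro x
  have hx : x = ∑ p : Fin 3 × Fin 3, Matrix.single p.1 p.2 (x p.1 p.2) := by
    conv_lhs => rw [Matrix.matrix_eq_sum_single x]
    rw [← Finset.sum_product']
    rfl
  have htr : Matrix.trace ((Matrix.of fun i j => if l (Matrix.single j i 1) = 1 then
      (0 : ZMod 2) else 1) * x.map φ) = ∑ p : Fin 3 × Fin 3,
        (if l (Matrix.single p.1 p.2 1) = 1 then (0 : ZMod 2) else 1) * φ (x p.1 p.2) := by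
    rw [Matrix.trace, Fintype.sum_prod_type_right]
    apply Finset.sum_congr rfl
    intro i _
    rw [Matrix.diag_apply, Matrix.mul_apply]
    rfl
  rw [htr, sg_sum]
  conv_lhs => rw [hx]
  rw [hsum]
  apply Finset.prod_congr rfl
  rintro ⟨i, j⟩ _
  simp only
  have hz : φ (x i j) = 0 ∨ φ (x i j) = 1 := by
    have : ∀ a : ZMod 2, a = 0 ∨ a = 1 := by decide
    exact this _
  rcases hz with hz | hz
  · have h1 : l (Matrix.single i j (x i j)) = 1 := by
      rw [← hl0]
      apply hc
      intro a b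
      rw [Matrix.zero_apply, map_zero, Matrix.single_apply]
      split_ifs
      · exact hz
      · exact map_zero φ
    rw [h1, hz, mul_zero, sg_zero]
  · have h1 : l (Matrix.single i j (x i j)) = l (Matrix.single i j 1) := by
      apply hc
      intro a b
      rw [Matrix.single_apply, Matrix.single_apply]
      split_ifs
      · rw [hz, map_one]
      · rfl
    rw [h1, hz, mul_one]
    split_ifs with h2
    · rw [h2, sg_zero]
    · rcases hsq (Matrix.single i j 1) with h3 | h3
      · exact absurd h3 h2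
      · rw [h3]; simp [sg]

theorem card_GL : Nat.card (GL (Fin 3) (ZMod 2)) = 168 := by
  rw [Matrix.card_GL_field]
  simp [Fin.prod_univ_three]

theorem small [Finite A] (h : Loc φ ϖ) {V : Type} [AddCommGroup V] [Module ℂ V]
    [FiniteDimensional ℂ V] [Nontrivial V] (ρ : Representation ℂ (GL (Fin 3) A) V)
    (hirr : RepGen.Irr ρ) : Module.finrank ℂ V ≤ 84 := by
  have : Finite (GL (Fin 3) A) := inferInstance
  obtain ⟨v, l, hv, hl⟩ := RepGen.common_eigen (J := Matrix (Fin 3) (Fin 3) A) _ V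
    (fun x => ρ (kk h x)) rfl (by
      intro x y
      show ρ (kk h x) * ρ (kk h y) = ρ (kk h y) * ρ (kk h x)
      rw [← map_mul, ← map_mul, ← kk_add, ← kk_add, add_comm])
  have hcan : ∀ a b : ℂ, a • v = b • v → a = b := by
    intro a b hab
    have : (a - b) • v = 0 := by rw [sub_smul, hab, sub_self]
    rcases smul_eq_zero.1 this with h1 | h1
    · exact sub_eq_zero.1 h1
    · exact absurd h1 hv
  have hladd : ∀ x y, l (x + y) = l x * l y := by
    intro x y
    apply hcan
    rw [← hl, kk_add, map_mul, Module.End.mul_apply, hl, map_smul, hl, smul_smul, mul_comm]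
  have hl0 : l 0 = 1 := by
    apply hcan
    rw [← hl, kk_zero, map_one, Module.End.one_apply, one_smul]
  have hlc : ∀ x y : Matrix (Fin 3) (Fin 3) A, (∀ i j, φ (x i j) = φ (y i j)) → l x = l y := by
    intro x y hxy
    apply hcan
    rw [← hl, ← hl, kk_congr h hxy]
  obtain ⟨m, hm⟩ := char_eq (φ := φ) l hladd hl0 hlc
  obtain ⟨g', hg1, hgm⟩ := exists_comm m
  obtain ⟨g, rfl⟩ := map_surj h g'
  have hgK : g ∉ K φ := by
    intro hk
    exact hg1 (MonoidHom.mem_ker.1 hk)
  have hinv : ∀ x : Matrix (Fin 3) (Fin 3) A, l ((g⁻¹).val * x * g.val) = l x := by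
    intro x
    rw [hm, hm]
    congr 1
    have e1 : ((g⁻¹).val * x * g.val).map φ =
        (GeneralLinearGroup.map φ g⁻¹).val * x.map φ * (GeneralLinearGroup.map φ g).val := by
      rw [Matrix.map_mul, Matrix.map_mul]
      rfl
    rw [e1, ← mul_assoc, ← mul_assoc, Matrix.trace_mul_comm, ← mul_assoc, ← mul_assoc, hgm,
      mul_assoc m, ← Units.val_mul, map_inv, mul_inv_cancel, Units.val_one, mul_one]
  classical
  let ψ : GL (Fin 3) A → ℂ := fun k => if hk : ∃ x, k = kk h x then l hk.choose else 0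
  have hψ : ∀ x, ψ (kk h x) = l x := by
    intro x
    have hk : ∃ y, kk h x = kk h y := ⟨x, rfl⟩
    have h1 : ψ (kk h x) = l hk.choose := dif_pos hk
    rw [h1]
    apply hcan
    rw [← hl, ← hl, ← hk.choose_spec]
  have h2 := RepGen.finrank_le_half ρ hirr (K φ) ψ v hv (by
      intro k hk
      obtain ⟨x, rfl⟩ := (mem_K_iff h).1 hk
      rw [hψ, hl]) g hgK (by
      intro k hk
      obtain ⟨x, rfl⟩ := (mem_K_iff h).1 hk
      rw [kk_conj]
      refine ⟨(mem_K_iff h).2 ⟨_, rfl⟩, ?_⟩
      rw [hψ, hψ, hinv])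
  rw [K_index h, card_GL] at h2
  omega

end small

end Pool.Agent.W447.GLloc
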