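import Mathlib
import Pool.Agent.W447.GLbig
import Pool.Agent.W447.GLsmall

set_option autoImplicit false

/-!
The quotient of the `p`-adic integers by the square of the maximal ideal.
-/

namespace Pool.Agent.W447.GLloc

open Matrix IsLocalRing

variable (p : ℕ) [Fact p.Prime]

/-- `ℤ_p / p^2` -/
abbrev AA : Type := ℤ_[p] ⧸ maximalIdeal ℤ_[p] ^ 2

/-- reduction modulo `p` -/
noncomputable def red : AA p →+* ZMod p :=
  Ideal.Quotient.lift (maximalIdeal ℤ_[p] ^ 2) (PadicInt.toZMod (p := p)) (by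
    intro a ha
    have h1 : a ∈ maximalIdeal ℤ_[p] := Ideal.pow_le_self two_ne_zero ha
    rw [← PadicInt.ker_toZMod] at h1
    exact h1)

theorem red_mk (a : ℤ_[p]) : red p (Ideal.Quotient.mk _ a) = PadicInt.toZMod a := rfl

theorem max_eq : maximalIdeal ℤ_[p] = Ideal.span {(p : ℤ_[p])} :=
  PadicInt.maximalIdeal_eq_span_p

theorem toZMod_eq_zero (a : ℤ_[p]) : PadicInt.toZMod a = 0 ↔ (p : ℤ_[p]) ∣ a := by
  rw [← Ideal.mem_span_singleton, ← max_eq, ← PadicInt.ker_toZMod]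
  rfl

theorem loc : Loc (red p) (Ideal.Quotient.mk _ (p : ℤ_[p]) : AA p) where
  surj := by
    intro x
    obtain ⟨a, ha⟩ := ZMod.ringHom_surjective (PadicInt.toZMod (p := p)) x
    exact ⟨Ideal.Quotient.mk _ a, by rw [red_mk, ha]⟩
  ker := by
    intro a ha
    obtain ⟨a, rfl⟩ := Ideal.Quotient.mk_surjective a
    rw [red_mk, toZMod_eq_zero] at ha
    obtain ⟨b, rfl⟩ := ha
    exact ⟨Ideal.Quotient.mk _ b, by rw [map_mul]⟩
  phi := by
    rw [red_mk, toZMod_eq_zero]
  sq := by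
    rw [← map_mul, Ideal.Quotient.eq_zero_iff_mem, max_eq, Ideal.span_singleton_pow,
      Ideal.mem_span_singleton, sq]
  ann := by
    intro a ha
    obtain ⟨a, rfl⟩ := Ideal.Quotient.mk_surjective a
    rw [← map_mul, Ideal.Quotient.eq_zero_iff_mem, max_eq, Ideal.span_singleton_pow,
      Ideal.mem_span_singleton, sq] at ha
    rw [red_mk, toZMod_eq_zero]
    exact (mul_dvd_mul_iff_left (by exact_mod_cast (Fact.out : p.Prime).ne_zero)).1 ha

theorem mem_K_of {r : ℕ} (hr : r = 2) (g : GL (Fin 3) (AA p)) (hg : g ∈ K (red p)) (i j : Fin 3) :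
    ∃ a ∈ maximalIdeal ℤ_[p] ^ (r - 1),
      g.val i j - (1 : Matrix (Fin 3) (Fin 3) (AA p)) i j = Ideal.Quotient.mk _ a := by
  subst hr
  obtain ⟨x, rfl⟩ := (mem_K_iff (loc p)).1 hg
  obtain ⟨b, hb⟩ := Ideal.Quotient.mk_surjective (x i j)
  refine ⟨(p : ℤ_[p]) * b, ?_, ?_⟩
  · rw [Nat.add_one_sub_one, pow_one, max_eq, Ideal.mem_span_singleton]
    exact dvd_mul_right _ _
  · rw [kk_val, Matrix.add_apply, Matrix.smul_apply, smul_eq_mul, ← hb, map_mul]
    ring

instance : Finite (AA p) := by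
  have h : Function.Injective (fun a : AA p => a) := fun _ _ h => h
  -- `ℤ_p / p^2` is finite
  have h2 : (maximalIdeal ℤ_[p] ^ 2 : Ideal ℤ_[p]) = RingHom.ker (PadicInt.toZModPow (p := p) 2) := by
    rw [PadicInt.ker_toZModPow, max_eq, Ideal.span_singleton_pow]
  have e := Ideal.quotEquivOfEq h2
  have e2 := RingHom.quotientKerEquivOfSurjective
    (ZMod.ringHom_surjective (PadicInt.toZModPow (p := p) 2))
  have : NeZero (p ^ 2) := ⟨pow_ne_zero _ (Fact.out : p.Prime).ne_zero⟩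
  exact Finite.of_equiv _ (e.trans e2).symm.toEquiv

theorem card_residue : Nat.card (ResidueField ℤ_[p]) = p := by
  rw [Nat.card_congr (PadicInt.residueField (p := p)).toEquiv, Nat.card_zmod]

instance : Finite (ResidueField ℤ_[p]) :=
  Finite.of_equiv _ (PadicInt.residueField (p := p)).symm.toEquiv

theorem exists_char : ∃ χ : MulChar (AA p) ℂ, χ (1 + Ideal.Quotient.mk _ (p : ℤ_[p])) ≠ 1 := by
  apply MulChar.exists_apply_ne_one_of_hasEnoughRootsOfUnity
  intro h
  have h1 : (Ideal.Quotient.mk (maximalIdeal ℤ_[p] ^ 2) (p : ℤ_[p])) = 0 := by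
    linear_combination h
  have h2 := (loc p).ann 1 (by rw [h1, zero_mul])
  rw [map_one] at h2
  exact one_ne_zero h2

end Pool.Agent.W447.GLloc
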